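import Pool.Agent.H461.WkA.Up

/-!
# Values of split rational functions at rational arguments: the packaged bounds with the weight of
the points of degree three (after library Q10/KY8, KY9, KZ2)
-/

set_option autoImplicit false

namespace Pool.Agent.H461.WkA

open NumberField IsDedekindDomain Finset Polynomial
open Pool.Agent.H691R3 Pool.Agent.Q10.KY Pool.Agent.Q10.KV Pool.Agent.Q10.KZ

variable {K : Type} [Field K] [NumberField K]

theorem upT {n : ℕ} {P : Fin n → K[X]} (hP : ∀ i, P i ≠ 0) (hs : ∀ i, (P i).Splits)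
    (hu : ∃ u : Fin n → K[X], ∑ i, u i * P i = 1) {D : ℕ} (hD : 1 ≤ D)
    (hdeg : ∀ i, (P i).natDegree ≤ D) (hdeg' : ∃ i, (P i).natDegree = D) (κ ε : ℝ) (hκ : 0 < κ)
    (hε : 0 < ε) : ∃ C : ℝ, 0 < C ∧ ∀ X : ℝ, 1 ≤ X →
      (ParT P X (κ * Real.log X)).Finite ∧
      ((ParT P X (κ * Real.log X)).ncard : ℝ) ≤ C * X ^ (1 / S3 P + ε) := by
  have h2 : 2 ≤ (pts P).card := two_le_pts hP hs hu hD hdeg'
  obtain ⟨C, hC, h⟩ := bdd_upper' hP hs hu hD hdeg hdeg' (S3_pos h2) κ ε hκ.le hε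
  refine ⟨C, hC, fun X hX => Pool.Agent.Q10.KV.fin_of_cards _ _ fun s hs' => ?_⟩
  refine h X hX s fun x hx => ?_
  obtain ⟨⟨g1, g2⟩, g3⟩ := hs' hx
  exact ⟨g1, g2, g3⟩

theorem upH {n : ℕ} {P : Fin n → K[X]} (hP : ∀ i, P i ≠ 0) (hs : ∀ i, (P i).Splits)
    (hu : ∃ u : Fin n → K[X], ∑ i, u i * P i = 1) {D : ℕ} (hD : 1 ≤ D)
    (hdeg : ∀ i, (P i).natDegree ≤ D) (hdeg' : ∃ i, (P i).natDegree = D)
    (r h : ℚ → ℝ) (b : ℝ)
    (hr : ∀ x : ℚ, (∀ i, (P i).eval (x : K) ≠ 0) →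
      |r x - rdK P (x : K) / (Module.finrank ℚ K : ℝ)| ≤ b)
    (hh : ∀ x : ℚ, (∀ i, (P i).eval (x : K) ≠ 0) →
      |h x - Height.logHeight (fun i => (P i).eval (x : K)) / (Module.finrank ℚ K : ℝ)| ≤ b)
    (κ ε : ℝ) (hκ : 0 < κ) (hε : 0 < ε) : ∃ C : ℝ, 0 < C ∧ ∀ X : ℝ, 1 ≤ X →
      (ParH P r h X (κ * Real.log X)).Finite ∧
      ((ParH P r h X (κ * Real.log X)).ncard : ℝ) ≤ C * X ^ (1 / S3 P + ε) := by
  classical
  have hn0 : (0 : ℝ) < Module.finrank ℚ K := Pool.Agent.Q10.KV.deg_pos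
  obtain ⟨B, hB⟩ : ∃ B : ℝ, B = Real.exp |b| := ⟨_, rfl⟩
  have hB1 : 1 ≤ B := by rw [hB]; exact Real.one_le_exp (abs_nonneg b)
  have hB0 : 0 < B := by linarith
  have hlB : Real.log B = |b| := by rw [hB, Real.log_exp]
  have hbb := le_abs_self b
  have inc1 : ∀ X : ℝ, 1 ≤ X → ParG P r X ⊆ Par P (X * B) := by
    rintro X hX x ⟨g1, g2⟩
    refine ⟨g1, ?_⟩
    have h3 := abs_le.1 (hr x g1)
    have h4 : rdK P (x : K) / (Module.finrank ℚ K : ℝ) ≤ Real.log (X * B) := by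
      rw [Real.log_mul (by linarith) hB0.ne', hlB]
      linarith [h3.1]
    rw [div_le_iff₀ hn0] at h4
    linarith
  have inc2 : ∀ κ X : ℝ, 0 < κ → 1 ≤ X → ParH P r h X (κ * Real.log X) ⊆
      ParT P (X * B) ((κ + 1) * Real.log (X * B)) := by
    rintro κ X hκ hX x ⟨hx, g3⟩
    refine ⟨inc1 X hX hx, ?_⟩
    have h3 := abs_le.1 (hh x hx.1)
    have hlX : 0 ≤ Real.log X := Real.log_nonneg hX
    have h4 : Height.logHeight (fun i => (P i).eval (x : K)) / (Module.finrank ℚ K : ℝ) ≤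
        (κ + 1) * Real.log (X * B) := by
      rw [Real.log_mul (by linarith) hB0.ne', hlB]
      have h5 : κ * Real.log X + |b| ≤ (κ + 1) * (Real.log X + |b|) := by
        nlinarith [abs_nonneg b]
      linarith [h3.1]
    rw [div_le_iff₀ hn0] at h4
    linarith
  obtain ⟨C, hC, hmain⟩ := upT hP hs hu hD hdeg hdeg' (κ + 1) ε (by linarith) hε
  refine ⟨C * B ^ (1 / S3 P + ε), by positivity, fun X hX => ?_⟩
  have hXB : 1 ≤ X * B := one_le_mul_of_one_le_of_one_le hX hB1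
  obtain ⟨h3, h4⟩ := hmain (X * B) hXB
  refine ⟨h3.subset (inc2 κ X hκ hX), ?_⟩
  have h5 : ((ParH P r h X (κ * Real.log X)).ncard : ℝ) ≤
      ((ParT P (X * B) ((κ + 1) * Real.log (X * B))).ncard : ℝ) := by
    exact_mod_cast Set.ncard_le_ncard (inc2 κ X hκ hX) h3
  refine (h5.trans h4).trans (le_of_eq ?_)
  rw [Real.mul_rpow (by linarith) hB0.le]
  ring

/-- the violations of slope `κ`, up to the height `log B` -/
def Viol (P : Fin 3 → K[X]) (κ c B : ℝ) : Set K :=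
  {x | x ≠ 0 ∧ x ≠ 1 ∧ (∃ t : ℚ, (P 2).eval (t : K) ≠ 0 ∧ x = val P t) ∧ hgt x ≤ Real.log B ∧
    κ * cnd3 x ≤ hgt x + c}

theorem values' {P : Fin 3 → K[X]} (hP : ∀ i, P i ≠ 0) (hs : ∀ i, (P i).Splits)
    (hsum : P 0 + P 1 = P 2)
    (hcop : IsCoprime (P 0) (P 1)) {D : ℕ} (hD : 1 ≤ D)
    (hdeg : ∀ i, (P i).natDegree ≤ D) (hdeg' : ∃ i, (P i).natDegree = D)
    {q : ℕ} (hq : (pts P).card = q) :
    (∀ κ ε : ℝ, 0 < κ → 0 < ε → ∃ C : ℝ, 0 < C ∧ ∀ X : ℝ, 1 ≤ X →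
      (ValsT P X (κ * Real.log X)).Finite ∧
      ((ValsT P X (κ * Real.log X)).ncard : ℝ) ≤ C * X ^ (1 / S3 P + ε)) ∧
    (∀ κ c ε : ℝ, 0 < κ → 0 < ε → ∃ C : ℝ, 0 < C ∧ ∀ B : ℝ, 1 ≤ B →
      (Viol P κ c B).Finite ∧
      ((Viol P κ c B).ncard : ℝ) ≤ C * B ^ (1 / (κ * S3 P) + ε)) ∧
    ((∀ a ∈ pts P, dgr a ≤ 3) → (rat P).card ≠ 1 → ∀ κ : ℝ, (D : ℝ) / q < κ →
      ∀ δ : ℝ, 0 < δ → ∃ X₀ : ℝ, 1 ≤ X₀ ∧ ∀ X : ℝ, X₀ ≤ X →
        X ^ (2 / (q : ℝ) - δ) ≤ ((ValsT P X (κ * Real.log X)).ncard : ℝ) ∧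
        ((ValsT P X (κ * Real.log X)).ncard : ℝ) ≤ X ^ (2 / (q : ℝ) + δ)) := by
  have hu : ∃ u : Fin 3 → K[X], ∑ i, u i * P i = 1 := by
    obtain ⟨a, b, hab⟩ := hcop
    refine ⟨![a, b, 0], ?_⟩
    rw [Fin.sum_univ_three]
    simp only [Matrix.cons_val_zero, Matrix.cons_val_one, Matrix.cons_val, zero_mul, add_zero]
    exact hab
  have h2 : 2 ≤ (pts P).card := two_le_pts hP hs hu hD hdeg'
  have hS0 : 0 < S3 P := S3_pos h2
  obtain ⟨b, hb⟩ := hgt_near hP hsum hcop hdeg hdeg'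
  have hb0 : 0 ≤ |b| := abs_nonneg b
  have hup1 : ∀ κ ε : ℝ, 0 < κ → 0 < ε → ∃ C : ℝ, 0 < C ∧ ∀ X : ℝ, 1 ≤ X →
      (ValsT P X (κ * Real.log X)).Finite ∧
      ((ValsT P X (κ * Real.log X)).ncard : ℝ) ≤ C * X ^ (1 / S3 P + ε) := by
    intro κ ε hκ hε
    obtain ⟨C, hC, hmain⟩ := upH hP hs hu hD hdeg hdeg'
      (fun t => cnd3 (val P t)) (fun t => hgt (val P t)) |b|
      (fun t ht => by
        show |cnd3 (val P t) - _| ≤ _
        rw [rd_eq hsum ht, sub_self, abs_zero]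
        exact hb0)
      (fun t ht => (hb (t : K) (ht 2)).trans (le_abs_self b)) κ ε hκ hε
    refine ⟨C, hC, fun X hX => ?_⟩
    obtain ⟨h3, h4⟩ := hmain X hX
    rw [valsT_eq hsum]
    refine ⟨h3.image _, le_trans ?_ h4⟩
    exact_mod_cast Set.ncard_image_le h3
  refine ⟨hup1, ?_, ?_⟩
  · intro κ c ε hκ hε
    obtain ⟨C, hC, hmain⟩ := hup1 κ (κ * ε) hκ (by positivity)
    obtain ⟨E, hE⟩ : ∃ E : ℝ, E = Real.exp |c| := ⟨_, rfl⟩
    have hE1 : 1 ≤ E := by rw [hE]; exact Real.one_le_exp (abs_nonneg c)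
    have hE0 : 0 < E := by linarith
    have hlE : Real.log E = |c| := by rw [hE, Real.log_exp]
    refine ⟨C * E ^ (1 / (κ * S3 P) + ε), by positivity, fun B hB => ?_⟩
    have hB0 : 0 < B := by linarith
    have hBE : 1 ≤ B * E := one_le_mul_of_one_le_of_one_le hB hE1
    have hX1 : 1 ≤ (B * E) ^ (1 / κ) := Real.one_le_rpow hBE (by positivity)
    have hlX : Real.log ((B * E) ^ (1 / κ)) = 1 / κ * (Real.log B + |c|) := by
      rw [Real.log_rpow (by positivity), Real.log_mul hB0.ne' hE0.ne', hlE]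
    obtain ⟨h3, h4⟩ := hmain _ hX1
    have hsub : Viol P κ c B ⊆
        ValsT P ((B * E) ^ (1 / κ)) (κ * Real.log ((B * E) ^ (1 / κ))) := by
      rintro x ⟨g1, g2, g3, g4, g5⟩
      refine ⟨⟨g1, g2, g3, ?_⟩, ?_⟩
      · rw [hlX]
        have h6 : κ * cnd3 x ≤ Real.log B + |c| := by
          have := le_abs_self c
          linarith
        rw [one_div, ← div_eq_inv_mul, le_div_iff₀ hκ]
        linarith
      · rw [hlX]
        have e : κ * (1 / κ * (Real.log B + |c|)) = Real.log B + |c| := by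
          field_simp
        rw [e]
        have := abs_nonneg c
        linarith
    refine ⟨h3.subset hsub, ?_⟩
    have h5 : ((Viol P κ c B).ncard : ℝ) ≤
        ((ValsT P ((B * E) ^ (1 / κ)) (κ * Real.log ((B * E) ^ (1 / κ)))).ncard : ℝ) := by
      exact_mod_cast Set.ncard_le_ncard hsub h3
    refine (h5.trans h4).trans (le_of_eq ?_)
    rw [← Real.rpow_mul (by positivity)]
    have e : 1 / κ * (1 / S3 P + κ * ε) = 1 / (κ * S3 P) + ε := by
      field_simp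
    rw [e, Real.mul_rpow hB0.le hE0.le]
    ring
  · intro hd h1 κ hκ δ hδ
    have hq0 : (0 : ℝ) < q := by
      rw [← hq]
      exact_mod_cast (by omega : 0 < (pts P).card)
    have hD0 : (0 : ℝ) < D := by exact_mod_cast hD
    have hκ0 : 0 < κ := lt_trans (by positivity) hκ
    obtain ⟨-, -, p3, -⟩ := values hP hs hsum hcop hD hdeg hdeg' hq
    obtain ⟨C, hC, hfin⟩ := hup1 κ (δ / 2) hκ0 (by positivity)
    obtain ⟨c, hc, X0, hX0, hlow⟩ := p3 κ hκ
    have hS : 1 / S3 P = 2 / (q : ℝ) := by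
      rw [S3_three hd h1, hq]
      field_simp
    rw [hS] at hfin
    refine ⟨max X0 (max (C ^ (2 / δ)) ((1 / c) ^ (1 / δ))), hX0.trans (le_max_left _ _),
      fun X hX => ?_⟩
    have hXa : X0 ≤ X := (le_max_left _ _).trans hX
    have hXb : C ^ (2 / δ) ≤ X := (le_max_left _ _).trans ((le_max_right _ _).trans hX)
    have hXc : (1 / c) ^ (1 / δ) ≤ X := (le_max_right _ _).trans ((le_max_right _ _).trans hX)
    have hX1 : 1 ≤ X := hX0.trans hXa
    have hXp : 0 < X := by linarith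
    constructor
    · refine le_trans ?_ (hlow X hXa)
      have h3 : 1 / c ≤ X ^ δ := by
        have h4 := Real.rpow_le_rpow (by positivity) hXc hδ.le
        rw [← Real.rpow_mul (by positivity), one_div_mul_cancel hδ.ne', Real.rpow_one] at h4
        exact h4
      rw [Real.rpow_sub hXp, div_le_iff₀ (by positivity)]
      have h5 : 1 ≤ c * X ^ δ := by
        rw [div_le_iff₀ hc] at h3
        linarith
      have h6 : 0 < X ^ (2 / (q : ℝ)) := by positivity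
      nlinarith
    · refine (hfin X hX1).2.trans ?_
      have h3 : C ≤ X ^ (δ / 2) := by
        have h4 := Real.rpow_le_rpow (by positivity) hXb (by positivity : 0 ≤ δ / 2)
        rw [← Real.rpow_mul hC.le, div_mul_div_comm, mul_comm δ 2, div_self (by positivity),
          Real.rpow_one] at h4
        exact h4
      calc C * X ^ (2 / (q : ℝ) + δ / 2) ≤ X ^ (δ / 2) * X ^ (2 / (q : ℝ) + δ / 2) :=
            mul_le_mul_of_nonneg_right h3 (by positivity)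
        _ = X ^ (2 / (q : ℝ) + δ) := by
            rw [← Real.rpow_add hXp]
            congr 1
            ring

end Pool.Agent.H461.WkA
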