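import Pool.Graph.R_pool_sql_team_seeded_2aa45f1a.Q10.KZ2
import Pool.Agent.H461.Blk.Blocks

/-!
# Rational parameters on split curves: points of degree three count as blocks of weight three
(after library Q10/KY5 - KY9; new: the weight of the points of degree three)
-/

set_option autoImplicit false

namespace Pool.Agent.H461.WkA

open NumberField IsDedekindDomain Finset Polynomial
open Pool.Agent.TH498.HF Pool.Agent.TH498.KB
open Pool.Agent.W4.CF Pool.Agent.W4.VC Pool.Agent.H691R3 Pool.Agent.Q10.KT Pool.Agent.Q10.KV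
open Pool.Agent.Q10.KY

/-- the choice of a block, with weights -/
theorem block_choice' {ι : Type} [DecidableEq ι] (A I R : Finset ι) (hI : I ⊆ A) (hR : R ⊆ A)
    (hIR : Disjoint I R) (d ρ u : ι → ℝ) (hd : ∀ a, 0 < d a) (hdR : ∀ a ∈ R, d a = 1)
    (hρ : ∀ a, 0 ≤ ρ a) (hu : ∀ a ∈ I, 0 < u a) (b : Prop) [Decidable b] (Λ S : ℝ)
    (hsum : ∑ a ∈ A, ρ a / d a ≤ Λ)
    (hS : S = ∑ a ∈ I, u a / d a + if b then (R.card : ℝ) / 2 else 0) (hS0 : 0 < S) :
    (∃ a ∈ I, ρ a ≤ u a * (Λ / S)) ∨ (b ∧ ∑ a ∈ R, ρ a ≤ (R.card : ℝ) / 2 * (Λ / S)) := by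
  by_contra hcon
  push Not at hcon
  obtain ⟨h1, h2⟩ := hcon
  have h3 : ∑ a ∈ I, ρ a / d a + ∑ a ∈ R, ρ a / d a ≤ Λ := by
    rw [← Finset.sum_union hIR]
    refine le_trans ?_ hsum
    exact Finset.sum_le_sum_of_subset_of_nonneg (Finset.union_subset hI hR)
      fun a _ _ => div_nonneg (hρ a) (hd a).le
  have h4 : ∑ a ∈ R, ρ a / d a = ∑ a ∈ R, ρ a :=
    Finset.sum_congr rfl fun a ha => by rw [hdR a ha, div_one]
  rw [h4] at h3
  have h5 : (Λ / S) * ∑ a ∈ I, u a / d a ≤ ∑ a ∈ I, ρ a / d a := by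
    rw [Finset.mul_sum]
    refine Finset.sum_le_sum fun a ha => ?_
    have e : Λ / S * (u a / d a) = u a * (Λ / S) / d a := by ring
    rw [e]
    exact div_le_div_of_nonneg_right (h1 a ha).le (hd a).le
  have h6 : 0 ≤ ∑ a ∈ R, ρ a := Finset.sum_nonneg fun a _ => hρ a
  have h7 : (Λ / S) * S = Λ := div_mul_cancel₀ _ hS0.ne'
  obtain ⟨c, hc⟩ : ∃ c : ℝ, c = Λ / S := ⟨_, rfl⟩
  rw [← hc] at h1 h2 h5 h7
  by_cases hb : b
  · have h8 := h2 hb
    rw [if_pos hb] at hS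
    rw [hS, mul_add] at h7
    linarith
  · rw [if_neg hb, add_zero] at hS
    have hne : I.Nonempty := by
      rw [Finset.nonempty_iff_ne_empty]
      rintro rfl
      rw [Finset.sum_empty] at hS
      linarith
    have h5' : c * ∑ a ∈ I, u a / d a < ∑ a ∈ I, ρ a / d a := by
      rw [Finset.mul_sum]
      refine Finset.sum_lt_sum_of_nonempty hne fun a ha => ?_
      have e : c * (u a / d a) = u a * c / d a := by ring
      rw [e]
      exact div_lt_div_of_pos_right (h1 a ha) (hd a)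
    rw [← hS, h7] at h5'
    linarith

variable {K : Type} [Field K] [NumberField K] {n : ℕ}

/-- the bound from blocks with weights -/
theorem master' {P : Fin n → K[X]} (hP : ∀ i, P i ≠ 0) (hs : ∀ i, (P i).Splits)
    (hc : ∀ r : K, ∃ i, (P i).eval r ≠ 0) {F : Option K → ℤ[X]} (hF : FormOf F)
    (H : ℝ → ℤ × ℤ → Prop) (I : Finset (Option K)) (hI : I ⊆ pts P) (hI1 : ∀ a ∈ I, dgr a ≠ 1)
    (b : Prop) [Decidable b] (hb : b → 1 ≤ (rat P).card) (u : Option K → ℝ)
    (hu : ∀ a ∈ I, 0 < u a)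
    (hcI : ∀ a ∈ I, Cnt H (F a) (dgr a) (1 / u a))
    (hcR : b → Cnt H (∏ a ∈ rat P, F a) (∑ a ∈ rat P, dgr a) (2 / ((rat P).card : ℝ)))
    (S : ℝ) (hS : S = ∑ a ∈ I, u a / (dgr a : ℝ) + if b then ((rat P).card : ℝ) / 2 else 0)
    (hS0 : 0 < S) (ε : ℝ) (hε : 0 < ε) :
    ∃ C : ℝ, 0 < C ∧ ∀ X : ℝ, 1 ≤ X → ∀ s : Finset (ℤ × ℤ),
      (∀ x ∈ s, IsCoprime x.1 x.2 ∧ x.2 ≠ 0 ∧ H X x ∧
        (∀ i, (P i).eval ((x.1 : K) / x.2) ≠ 0) ∧
        rdK P ((x.1 : K) / x.2) ≤ (Module.finrank ℚ K : ℝ) * Real.log X) →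
      (s.card : ℝ) ≤ C * X ^ (1 / S + ε) := by
  classical
  obtain ⟨m, hm, hlow⟩ := rad_low hP hs hc hF
  obtain ⟨l, hl⟩ : ∃ l : ℝ, l = ((rat P).card : ℝ) := ⟨_, rfl⟩
  have hl0 : 0 ≤ l := by rw [hl]; exact Nat.cast_nonneg _
  have hτ : 0 ≤ 1 / S := by positivity
  have hτ2 : 0 ≤ l / 2 * (1 / S) := by positivity
  have hA : ∀ a : Option K, ∃ C : ℝ, 0 < C ∧ (a ∈ I → ∀ X : ℝ, 1 ≤ X →
      ∀ s : Finset (ℤ × ℤ), (∀ x ∈ s, IsCoprime x.1 x.2 ∧ H X x ∧
        hom (F a) (dgr a) x.1 x.2 ≠ 0 ∧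
        (radp m (hom (F a) (dgr a) x.1 x.2).natAbs : ℝ) ≤ X ^ (u a * (1 / S))) →
      (s.card : ℝ) ≤ C * X ^ (1 / S + ε)) := by
    intro a
    by_cases ha : a ∈ I
    · obtain ⟨C, hC, h⟩ := hcI a ha m hm (u a * (1 / S)) (mul_nonneg (hu a ha).le hτ) ε hε
      have e : u a * (1 / S) * (1 / u a) = 1 / S := by
        have := (hu a ha).ne'
        field_simp
      rw [e] at h
      exact ⟨C, hC, fun _ => h⟩
    · exact ⟨1, one_pos, fun h => absurd h ha⟩
  choose CA hCA hA' using hA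
  obtain ⟨CR, hCR, hR'⟩ : ∃ C : ℝ, 0 < C ∧ (b → ∀ X : ℝ, 1 ≤ X →
      ∀ s : Finset (ℤ × ℤ), (∀ x ∈ s, IsCoprime x.1 x.2 ∧ H X x ∧
        hom (∏ a ∈ rat P, F a) (∑ a ∈ rat P, dgr a) x.1 x.2 ≠ 0 ∧
        (radp m (hom (∏ a ∈ rat P, F a) (∑ a ∈ rat P, dgr a) x.1 x.2).natAbs : ℝ) ≤
          X ^ (l / 2 * (1 / S))) →
      (s.card : ℝ) ≤ C * X ^ (l / 2 * (1 / S) * (2 / l) + ε)) := by
    by_cases hb' : b
    · obtain ⟨C, hC, h⟩ := hcR hb' m hm (l / 2 * (1 / S)) hτ2 ε hε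
      rw [← hl] at h
      exact ⟨C, hC, fun _ => h⟩
    · exact ⟨1, one_pos, fun h => absurd h hb'⟩
  refine ⟨∑ a ∈ I, CA a + CR, by
    have : 0 ≤ ∑ a ∈ I, CA a := Finset.sum_nonneg fun a _ => (hCA a).le
    linarith, fun X hX s hs' => ?_⟩
  have hX0 : 0 < X := by linarith
  have hn0 : (0 : ℝ) < Module.finrank ℚ K := by exact_mod_cast Module.finrank_pos
  have hra : ∀ (f : ℤ[X]) (k : ℕ) (x : ℤ × ℤ),
      (0 : ℝ) < (radp m (hom f k x.1 x.2).natAbs : ℕ) := fun f k x => by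
    exact_mod_cast Pool.Agent.W4.CF.radp_pos _ _
  have hdr : ∀ a : Option K, (0 : ℝ) < (dgr a : ℝ) := fun a => by exact_mod_cast dgr_pos a
  -- every pair is in one of the sets
  have hdiv : ∀ x ∈ s, (∃ a ∈ I, (radp m (hom (F a) (dgr a) x.1 x.2).natAbs : ℝ) ≤
      X ^ (u a * (1 / S))) ∨ (b ∧ (radp m (hom (∏ a ∈ rat P, F a) (∑ a ∈ rat P, dgr a)
        x.1 x.2).natAbs : ℝ) ≤ X ^ (l / 2 * (1 / S))) := by
    intro x hx
    obtain ⟨h1, h2, h3, h4, h5⟩ := hs' x hx
    obtain ⟨g1, g2⟩ := hlow x.1 x.2 h1 h2 h4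
    obtain ⟨ρ, hρ⟩ : ∃ ρ : Option K → ℝ, ρ = fun a =>
      Real.log (radp m (hom (F a) (dgr a) x.1 x.2).natAbs : ℝ) := ⟨_, rfl⟩
    have hρ0 : ∀ a, 0 ≤ ρ a := fun a => by
      rw [hρ]
      exact Real.log_nonneg (by exact_mod_cast Pool.Agent.W4.CF.radp_pos _ _)
    have hsum : ∑ a ∈ pts P, ρ a / (dgr a : ℝ) ≤ Real.log X := by
      have e1 : ∑ a ∈ pts P, (Module.finrank ℚ K : ℝ) / (dgr a : ℝ) *
          Real.log (radp m (hom (F a) (dgr a) x.1 x.2).natAbs : ℝ) =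
          (Module.finrank ℚ K : ℝ) * ∑ a ∈ pts P, ρ a / (dgr a : ℝ) := by
        rw [Finset.mul_sum, hρ]
        exact Finset.sum_congr rfl fun a _ => by ring
      rw [e1] at g2
      exact le_of_mul_le_mul_left (g2.trans h5) hn0
    rcases block_choice' (pts P) I (rat P) hI (Finset.filter_subset _ _) (by
        rw [Finset.disjoint_left]
        intro a ha ha'
        exact hI1 a ha (Finset.mem_filter.1 ha').2) (fun a => (dgr a : ℝ)) ρ u hdr (by
        intro a ha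
        have := (Finset.mem_filter.1 ha).2
        simp [this]) hρ0 hu b (Real.log X) S hsum hS hS0 with ⟨a, ha, h6⟩ | ⟨hb', h6⟩
    · left
      refine ⟨a, ha, ?_⟩
      rw [← Real.log_le_log_iff (hra _ _ x) (by positivity), Real.log_rpow hX0]
      have h7 : ρ a = Real.log (radp m (hom (F a) (dgr a) x.1 x.2).natAbs : ℝ) := by rw [hρ]
      rw [← h7]
      refine h6.trans (le_of_eq ?_)
      ring
    · right
      refine ⟨hb', ?_⟩
      rw [← Real.log_le_log_iff (hra _ _ x) (by positivity), Real.log_rpow hX0]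
      rw [(hom_prod (rat P) F dgr (fun a _ => hF.natDegree_le a) x.1 x.2).2]
      have e1 : (∏ a ∈ rat P, hom (F a) (dgr a) x.1 x.2).natAbs =
        ∏ a ∈ rat P, (hom (F a) (dgr a) x.1 x.2).natAbs := map_prod Int.natAbsHom _ _
      rw [e1]
      -- the radical of the product
      have h8 : ∀ a ∈ rat P, (hom (F a) (dgr a) x.1 x.2).natAbs ≠ 0 := fun a ha =>
        Int.natAbs_ne_zero.mpr (g1 a (Finset.mem_filter.1 ha).1)
      have h7 : ((radp m (∏ a ∈ rat P, (hom (F a) (dgr a) x.1 x.2).natAbs) : ℕ) : ℝ) ≤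
          ((∏ a ∈ rat P, radp m (hom (F a) (dgr a) x.1 x.2).natAbs : ℕ) : ℝ) := by
        exact_mod_cast radp_prod_le m (rat P) _ h8
      have h9 : (0 : ℝ) < (radp m (∏ a ∈ rat P, (hom (F a) (dgr a) x.1 x.2).natAbs) : ℕ) := by
        exact_mod_cast Pool.Agent.W4.CF.radp_pos _ _
      refine (Real.log_le_log h9 h7).trans ?_
      rw [Nat.cast_prod, Real.log_prod (fun a _ => (hra _ _ x).ne')]
      have h10 : ∑ a ∈ rat P, Real.log (radp m (hom (F a) (dgr a) x.1 x.2).natAbs : ℝ) =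
          ∑ a ∈ rat P, ρ a := by rw [hρ]
      rw [h10, hl]
      refine h6.trans (le_of_eq ?_)
      ring
  -- the cover
  obtain ⟨T, hT⟩ : ∃ T : Option K → Finset (ℤ × ℤ), T = fun a => s.filter fun x =>
    (radp m (hom (F a) (dgr a) x.1 x.2).natAbs : ℝ) ≤ X ^ (u a * (1 / S)) := ⟨_, rfl⟩
  obtain ⟨U, hU⟩ : ∃ U : Finset (ℤ × ℤ), U = s.filter fun x => b ∧
    (radp m (hom (∏ a ∈ rat P, F a) (∑ a ∈ rat P, dgr a) x.1 x.2).natAbs : ℝ) ≤
      X ^ (l / 2 * (1 / S)) := ⟨_, rfl⟩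
  have hcov : s ⊆ I.biUnion T ∪ U := by
    intro x hx
    rw [Finset.mem_union]
    rcases hdiv x hx with ⟨a, ha, h⟩ | ⟨h1, h2⟩
    · left
      rw [Finset.mem_biUnion]
      refine ⟨a, ha, ?_⟩
      rw [hT]
      exact Finset.mem_filter.2 ⟨hx, h⟩
    · right
      rw [hU]
      exact Finset.mem_filter.2 ⟨hx, h1, h2⟩
  have hTc : ∀ a ∈ I, ((T a).card : ℝ) ≤ CA a * X ^ (1 / S + ε) := by
    intro a ha
    exact hA' a ha X hX (T a) (by
      intro x hx
      rw [hT] at hx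
      obtain ⟨hx1, hx2⟩ := Finset.mem_filter.1 hx
      obtain ⟨h1, h2, h3, h4, h5⟩ := hs' x hx1
      exact ⟨h1, h3, (hlow x.1 x.2 h1 h2 h4).1 a (hI ha), hx2⟩)
  have hUc : (U.card : ℝ) ≤ CR * X ^ (1 / S + ε) := by
    by_cases hb' : b
    · have h1 := hR' hb' X hX U (by
        intro x hx
        rw [hU] at hx
        obtain ⟨hx1, -, hx2⟩ := Finset.mem_filter.1 hx
        obtain ⟨h1, h2, h3, h4, h5⟩ := hs' x hx1
        refine ⟨h1, h3, ?_, hx2⟩
        rw [(hom_prod (rat P) F dgr (fun a _ => hF.natDegree_le a) x.1 x.2).2,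
          Finset.prod_ne_zero_iff]
        intro a ha
        exact (hlow x.1 x.2 h1 h2 h4).1 a (Finset.mem_filter.1 ha).1)
      have h2 : l / 2 * (1 / S) * (2 / l) = 1 / S := by
        have hl1 : 1 ≤ l := by rw [hl]; exact_mod_cast hb hb'
        field_simp
      rwa [h2] at h1
    · have : U = ∅ := by
        rw [hU, Finset.filter_eq_empty_iff]
        rintro x - ⟨h, -⟩
        exact hb' h
      rw [this, Finset.card_empty, Nat.cast_zero]
      positivity
  calc (s.card : ℝ) ≤ ((I.biUnion T ∪ U).card : ℝ) := by exact_mod_cast card_le_card hcov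
    _ ≤ ((I.biUnion T).card : ℝ) + U.card := by exact_mod_cast card_union_le _ _
    _ ≤ ∑ a ∈ I, ((T a).card : ℝ) + U.card := by
        refine add_le_add ?_ le_rfl
        exact_mod_cast card_biUnion_le
    _ ≤ ∑ a ∈ I, CA a * X ^ (1 / S + ε) + CR * X ^ (1 / S + ε) :=
        add_le_add (Finset.sum_le_sum hTc) hUc
    _ = _ := by rw [← Finset.sum_mul, ← add_mul]

/-- the weight of the block of an irrational point: half the degree for the degrees two and
three, and one for the larger degrees -/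
noncomputable def wt (a : Option K) : ℝ := if dgr a ≤ 3 then (dgr a : ℝ) / 2 else 1

theorem wt_pos (a : Option K) : 0 < wt a := by
  unfold wt
  have : (0 : ℝ) < dgr a := by exact_mod_cast dgr_pos a
  split_ifs
  · positivity
  · exact one_pos

/-- points of degree at least two, bounded heights -/
theorem cnt_block {F : Option K → ℤ[X]} (hF : FormOf F) {a : Option K} (ha : 2 ≤ dgr a)
    {B κ : ℝ} (hB : 1 ≤ B) (hκ : 0 ≤ κ) :
    Cnt (Pool.Agent.Q10.KY.Bdd B κ) (F a) (dgr a) (1 / wt a) := by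
  rcases Nat.lt_or_ge (dgr a) 3 with h3 | h3
  · have e : dgr a = 2 := by omega
    have e2 : (1 : ℝ) / wt a = 1 := by
      unfold wt
      rw [e]
      norm_num
    rw [e2]
    exact cnt_irr_bdd hF ha hB hκ
  · rcases Nat.lt_or_ge 3 (dgr a) with h4 | h4
    · have e2 : (1 : ℝ) / wt a = 1 := by
        unfold wt
        rw [if_neg (by omega), div_one]
      rw [e2]
      exact cnt_irr_bdd hF ha hB hκ
    · have e : dgr a = 3 := by omega
      have e2 : wt a = 3 / 2 := by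
        unfold wt
        rw [e]
        norm_num
      rw [e2, e]
      refine Cnt.of_paired (fun ε hε => ?_) hB hκ
      cases a with
      | none =>
        have : dgr (none : Option K) = 1 := rfl
        omega
      | some r =>
        exact Pool.Agent.H461.Blk.bdd_cubic (F (some r)) ((hF.deg r).trans e) (hF.irr r) ε hε

open Classical in
/-- the sum for bounded heights -/
noncomputable def S3 (P : Fin n → K[X]) : ℝ :=
  ∑ a ∈ (pts P).filter (fun a => 2 ≤ dgr a), wt a / (dgr a : ℝ) +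
    if 2 ≤ (rat P).card then ((rat P).card : ℝ) / 2 else 0

/-- **Bounded heights.** -/
theorem bdd_upper' {P : Fin n → K[X]} (hP : ∀ i, P i ≠ 0) (hs : ∀ i, (P i).Splits)
    (hu : ∃ u : Fin n → K[X], ∑ i, u i * P i = 1) {D : ℕ} (hD0 : 1 ≤ D)
    (hD : ∀ i, (P i).natDegree ≤ D) (hD' : ∃ i, (P i).natDegree = D) (hS0 : 0 < S3 P)
    (κ ε : ℝ) (hκ : 0 ≤ κ) (hε : 0 < ε) :
    ∃ C : ℝ, 0 < C ∧ ∀ X : ℝ, 1 ≤ X → ∀ T : Finset ℚ,
      (∀ x ∈ T, (∀ i, (P i).eval (x : K) ≠ 0) ∧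
        rdK P (x : K) ≤ (Module.finrank ℚ K : ℝ) * Real.log X ∧
        Height.logHeight (fun i => (P i).eval (x : K)) ≤
          (Module.finrank ℚ K : ℝ) * (κ * Real.log X)) →
      (T.card : ℝ) ≤ C * X ^ (1 / S3 P + ε) := by
  classical
  obtain ⟨F, hF⟩ := exists_forms K
  have hn0 : (0 : ℝ) < Module.finrank ℚ K := Pool.Agent.Q10.KV.deg_pos
  have hDr : (1 : ℝ) ≤ D := by exact_mod_cast hD0
  obtain ⟨i0, hi0⟩ := hD'
  obtain ⟨C1, hC1⟩ := Pool.Agent.Y557.NF.le_curve_height P hu hD ⟨i0, hi0, hP i0⟩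
  obtain ⟨B, hB⟩ : ∃ B : ℝ, B = Real.exp (|C1| / (Module.finrank ℚ K : ℝ)) := ⟨_, rfl⟩
  have hB1 : 1 ≤ B := by rw [hB]; exact Real.one_le_exp (by positivity)
  obtain ⟨C, hC, hmain⟩ := master' hP hs (hc_of hu) hF (Pool.Agent.Q10.KY.Bdd B κ)
    ((pts P).filter (fun a => 2 ≤ dgr a)) (Finset.filter_subset _ _)
    (fun a ha => by
      have := (Finset.mem_filter.1 ha).2
      omega)
    (2 ≤ (rat P).card) (fun h => by omega) wt (fun a _ => wt_pos a)
    (fun a ha => cnt_block hF (Finset.mem_filter.1 ha).2 hB1 hκ)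
    (fun h => cnt_rat_bdd hF h hB1 hκ) (S3 P) rfl hS0 ε hε
  refine ⟨C, hC, fun X hX T hT => ?_⟩
  have hX0 : 0 < X := by linarith
  have hlX : 0 ≤ Real.log X := Real.log_nonneg hX
  have h1 := hmain X hX (T.image fun x : ℚ => ((x.num, (x.den : ℤ)) : ℤ × ℤ)) (by
    intro p hp
    obtain ⟨x, hx, rfl⟩ := Finset.mem_image.mp hp
    obtain ⟨t1, t2, t3⟩ := hT x hx
    rw [cast_eq x] at t1 t2
    refine ⟨num_cop x, (by exact_mod_cast x.den_nz : (x.den : ℤ) ≠ 0), ?_, t1, t2⟩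
    have h2 := hC1 (x : K)
    rw [lh1_rat] at h2
    obtain ⟨m, hm⟩ : ∃ m : ℝ, m = max |(x.num : ℝ)| |((x.den : ℤ) : ℝ)| := ⟨_, rfl⟩
    have hm0 : 0 < m := by rw [hm]; exact max_pos' x
    rw [← hm] at h2
    have hm1 : 1 ≤ m := by
      rw [hm]
      refine le_trans ?_ (le_max_right _ _)
      have : (1 : ℤ) ≤ |(x.den : ℤ)| := Int.one_le_abs (by exact_mod_cast x.den_nz)
      exact_mod_cast this
    have hlm : 0 ≤ Real.log m := Real.log_nonneg hm1
    have h3 : Real.log m ≤ |C1| / (Module.finrank ℚ K : ℝ) + κ * Real.log X := by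
      have h4 : (Module.finrank ℚ K : ℝ) * Real.log m ≤
          |C1| + (Module.finrank ℚ K : ℝ) * (κ * Real.log X) := by
        have h5 : (1 : ℝ) * ((Module.finrank ℚ K : ℝ) * Real.log m) ≤
            D * ((Module.finrank ℚ K : ℝ) * Real.log m) :=
          mul_le_mul_of_nonneg_right hDr (by positivity)
        have := neg_abs_le C1
        linarith
      have h6 : Real.log m ≤ (|C1| + (Module.finrank ℚ K : ℝ) * (κ * Real.log X)) /
          (Module.finrank ℚ K : ℝ) := by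
        rw [le_div_iff₀ hn0]
        linarith
      refine h6.trans (le_of_eq ?_)
      field_simp
    have h7 : m ≤ B * X ^ κ := by
      have h8 := Real.exp_le_exp.2 h3
      rw [Real.exp_log hm0, Real.exp_add] at h8
      rw [hB, Real.rpow_def_of_pos hX0, mul_comm (Real.log X)]
      exact h8
    rw [hm] at h7
    exact ⟨(le_max_left _ _).trans h7, (le_max_right _ _).trans h7⟩)
  rw [Finset.card_image_of_injective _ num_inj] at h1
  exact h1

theorem S3_pos {P : Fin n → K[X]} (h2 : 2 ≤ (pts P).card) : 0 < S3 P := by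
  classical
  unfold S3
  have hnn : 0 ≤ ∑ a ∈ (pts P).filter (fun a => 2 ≤ dgr a), wt a / (dgr a : ℝ) :=
    Finset.sum_nonneg fun a _ => div_nonneg (wt_pos a).le (Nat.cast_nonneg _)
  by_cases h : 2 ≤ (rat P).card
  · rw [if_pos h]
    have h1 : (0 : ℝ) < ((rat P).card : ℝ) / 2 := by
      have : (2 : ℝ) ≤ (rat P).card := by exact_mod_cast h
      linarith
    linarith
  · rw [if_neg h, add_zero]
    have hcard := Finset.card_filter_add_card_filter_not (s := pts P) (fun a => dgr a = 1)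
    have e1 : (pts P).filter (fun a => ¬ dgr a = 1) = (pts P).filter (fun a => 2 ≤ dgr a) := by
      refine Finset.filter_congr fun a _ => ?_
      have := dgr_pos a
      omega
    rw [e1] at hcard
    have hr : ((pts P).filter (fun a => dgr a = 1)).card = (rat P).card := by
      unfold rat
      congr!
    have hne : ((pts P).filter (fun a => 2 ≤ dgr a)).Nonempty := by
      rw [← Finset.card_pos]
      omega
    refine Finset.sum_pos (fun a _ => ?_) hne
    have : (0 : ℝ) < dgr a := by exact_mod_cast dgr_pos a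
    exact div_pos (wt_pos a) this

theorem S3_three {P : Fin n → K[X]} (hd : ∀ a ∈ pts P, dgr a ≤ 3) (h1 : (rat P).card ≠ 1) :
    S3 P = ((pts P).card : ℝ) / 2 := by
  classical
  have hcard := Finset.card_filter_add_card_filter_not (s := pts P) (fun a => dgr a = 1)
  have e1 : (pts P).filter (fun a => ¬ dgr a = 1) = (pts P).filter (fun a => 2 ≤ dgr a) := by
    refine Finset.filter_congr fun a _ => ?_
    have := dgr_pos a
    omega
  rw [e1] at hcard
  have hr : ((pts P).filter (fun a => dgr a = 1)).card = (rat P).card := by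
    unfold rat
    congr!
  have e2 : ∑ a ∈ (pts P).filter (fun a => 2 ≤ dgr a), wt a / (dgr a : ℝ) =
      (((pts P).filter (fun a => 2 ≤ dgr a)).card : ℝ) / 2 := by
    rw [Finset.sum_congr rfl (fun a ha => ?_), Finset.sum_const, nsmul_eq_mul]
    · exact mul_one_div _ _
    · have h3 := hd a (Finset.mem_filter.1 ha).1
      have h4 : (dgr a : ℝ) ≠ 0 := by
        have := dgr_pos a
        exact_mod_cast (by omega : dgr a ≠ 0)
      unfold wt
      rw [if_pos h3]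
      field_simp
  have e3 : (if 2 ≤ (rat P).card then ((rat P).card : ℝ) / 2 else 0) =
      ((rat P).card : ℝ) / 2 := by
    split_ifs with h
    · rfl
    · have : (rat P).card = 0 := by omega
      rw [this]
      simp
  unfold S3
  rw [e2, e3, ← hcard, hr]
  push_cast
  ring

end Pool.Agent.H461.WkA
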